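import Pool.Agent.Helper9.RC2.Goals
import Pool.Agent.Helper49.ZR.RkS

/-!
# Packet RC2-RNK (MP_b55b7c_an, project RC2 of helper9): the rank of a compression
-/

open scoped ENNReal NNReal InnerProductSpace ComplexOrder
open Filter Topology

attribute [-instance] CStarMatrix.instAlgebra CStarMatrix.instModule CStarMatrix.instSMul
  CStarMatrix.instMulAction CStarMatrix.instDistribMulAction

noncomputable section
namespace Pool.Agent.Helper13.RC2.RNK
open RC
universe u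

variable {A : Type u} [CStarAlgebra A] [PartialOrder A] [StarOrderedRing A]
variable {ν : Type} [Fintype ν] [DecidableEq ν]

theorem nE_nonneg (δ : ℝ) (S : CStarMatrix ν ν A) : 0 ≤ nE δ S :=
  cfc_nonneg fun t _ => le_max_left 0 (1 - t / δ)

theorem nE_le_one {S : CStarMatrix ν ν A} (hS : 0 ≤ S) {δ : ℝ} (hδ : 0 < δ) :
    nE δ S ≤ 1 := by
  refine cfc_le_one (fun t : ℝ => max 0 (1 - t / δ)) S fun t ht => ?_
  have ht0 := spectrum_nonneg_of_nonneg hS ht
  have : 0 ≤ t / δ := div_nonneg ht0 hδ.le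
  exact max_le zero_le_one (by linarith)

theorem one_sub_nE_le {S : CStarMatrix ν ν A} (hS : 0 ≤ S) {δ : ℝ} (hδ : 0 < δ) :
    1 - nE δ S ≤ (1 / δ) • S := by
  have hsa : IsSelfAdjoint S := IsSelfAdjoint.of_nonneg hS
  have e1 : nE δ S + (1 / δ) • S
      = cfc (fun t : ℝ => max 0 (1 - t / δ) + 1 / δ * t) S := by
    rw [cfc_add S (fun t : ℝ => max 0 (1 - t / δ)) (fun t : ℝ => 1 / δ * t) (by fun_prop)
        (by fun_prop), cfc_const_mul (1 / δ) (fun t : ℝ => t) S (by fun_prop), cfc_id' ℝ S]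
    rfl
  rw [sub_le_iff_le_add, add_comm, e1, ← cfc_const_one ℝ S]
  refine cfc_mono (fun t ht => ?_) (by fun_prop) (by fun_prop)
  have h2 : 1 - t / δ ≤ max 0 (1 - t / δ) := le_max_right _ _
  have h3 : t / δ = 1 / δ * t := by ring
  linarith

theorem t (hLe : CuLeAddP.{u}) (hAdd : CuAddP.{u}) (hDs : QDsumP.{u}) (hMo : QMonoP.{u}) :
    RnkP.{u} := by
  intro B _ _ _ n _ _ z q S δ g hz hq hqz hS hδ hg
  have hqT := H49.conj_of_nonneg hq
  have pos : ∀ x : CStarMatrix n n B, 0 ≤ x → 0 ≤ q * x * q := fun x hx => by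
    have := cm_conj_nonneg q hx
    rwa [hqT] at this
  have hX := pos _ (nE_nonneg δ S)
  have h1N : 0 ≤ 1 - nE δ S := sub_nonneg.2 (nE_le_one hS hδ)
  have hY := pos _ h1N
  have hqS := pos _ hS
  have hd : (0 : ℝ) ≤ 1 / δ := by positivity
  have hdS : 0 ≤ (1 / δ) • (q * S * q) := smul_nonneg hd hqS
  have hsplit : z = q * nE δ S * q + q * (1 - nE δ S) * q := by
    rw [mul_sub, sub_mul, mul_one, hqz, add_sub_cancel]
  refine ⟨hX, fun ω => ?_⟩
  have hle : q * (1 - nE δ S) * q ≤ (1 / δ) • (q * S * q) + (0 : ℝ) • (1 : CStarMatrix n n B) := by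
    have := cm_conj_le q (one_sub_nE_le hS hδ)
    rw [hqT, cm_mul_rsmul, cm_rsmul_mul] at this
    rw [zero_smul, add_zero]
    exact this
  have c1 := hAdd B n (q * nE δ S * q) (q * (1 - nE δ S) * q) g 0 hg.le le_rfl hX hY
  rw [← hsplit, add_zero, cut_zero hY] at c1
  obtain ⟨p1, p2⟩ := hDs B ω n n _ _ (cut_nonneg (q * nE δ S * q) g) hY
  have k1 := hMo B ω n (n ⊕ n) _ _ (cut_nonneg z g) p1 c1
  have c2 := hLe B n (q * (1 - nE δ S) * q) _ 0 le_rfl hY hdS hle
  rw [cut_zero hY] at c2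
  have k2 := hMo B ω n n _ _ hY hdS c2
  have k3 := hMo B ω n n _ _ hdS hqS (H49.cu_smul _ hd)
  have k4 := hMo B ω n n _ _ hqS hS (H49.cu_conj S hq)
  linarith

end Pool.Agent.Helper13.RC2.RNK
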